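import Pool.Agent.H37.CND2.CGdx

/-!
# MP_b57703: an upper bound for `N_G`, all finite groups `G`
-/

set_option autoImplicit false

namespace Pool.Agent.Results.MP_b57703_ag.GeneralUpperBound

open Pool.CND

/-- `z ∈ H` has a nontrivial image in a quotient `H / H₀` which is commutative or (`p` odd) in which all elements of
order `p` are central -/
def GoodSection {G : Type} [Group G] (p : ℕ) (H : Subgroup G) (z : G) : Prop :=
  ∃ H₀ : Subgroup G, H₀ ≤ H ∧ (∀ h ∈ H, ∀ x ∈ H₀, h * x * h⁻¹ ∈ H₀) ∧ z ∉ H₀ ∧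
    ((∀ x ∈ H, ∀ h ∈ H, h * x * h⁻¹ * x⁻¹ ∈ H₀) ∨
      (p ≠ 2 ∧ ∀ x ∈ H, x ^ p ∈ H₀ → ∀ h ∈ H, h * x * h⁻¹ * x⁻¹ ∈ H₀))

/-- the condition on the `p`-subgroup `W`: `H` has index `p ^ d` in `W`, and `d ≤ a` and `GoodSection`, or `p = 2`,
`1 ≤ d ≤ a + 1`, and `z` is outside some subgroup of index `2` of `H` -/
def PCondition {G : Type} [Group G] (p a : ℕ) (W : Subgroup G) : Prop :=
  ∀ z ∈ W, z ≠ 1 → z ^ p = 1 → (∀ w ∈ W, w * z = z * w) →
    ∃ (H : Subgroup G) (d : ℕ), H ≤ W ∧ z ∈ H ∧ Nat.card W = p ^ d * Nat.card H ∧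
      ((GoodSection p H z ∧ d ≤ a) ∨
        (p = 2 ∧ 1 ≤ d ∧ d ≤ a + 1 ∧
          ∃ H₀ : Subgroup G, H₀ ≤ H ∧ z ∉ H₀ ∧ Nat.card H = 2 * Nat.card H₀))

/-- the condition on the elements of order prime to `p` normalising `W` -/
def TameCondition {G : Type} [Group G] (p r : ℕ) (W : Subgroup G) : Prop :=
  ∀ (g : G) (C : Subgroup G), ¬ p ∣ orderOf g → (∀ w ∈ W, g * w * g⁻¹ ∈ W) → C ≤ W → C ≠ ⊥ →
    (∀ x ∈ C, x ^ p = 1) → (∀ w ∈ W, ∀ x ∈ C, w * x = x * w) → (∀ x ∈ C, g * x * g⁻¹ ∈ C) →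
    (∀ s : ℕ, (∃ w ∈ C, w ≠ 1 ∧ g ^ s * w = w * g ^ s) → ∀ w ∈ C, g ^ s * w = w * g ^ s) →
    ∀ x ∈ C, g ^ r * x = x * g ^ r

/-- the least common multiple of the numbers `(p ^ m - 1) l`, `m, l ≥ 1`, `p` not dividing `l`, `p ^ m l ≤ n` -/
def tameBound (p n : ℕ) : ℕ :=
  ((Finset.Icc 1 n ×ˢ Finset.Icc 1 n).filter (fun x => ¬ p ∣ x.2 ∧ p ^ x.1 * x.2 ≤ n)).lcm
    (fun x => (p ^ x.1 - 1) * x.2)

/-- `B c` is an integer for every conductor `c`, and `N_G` divides `B` -/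
def Bounded (k : Type) [Field k] (G : Type) [Group G] (B : ℕ) : Prop :=
  (∀ c ∈ Cond k G, ∃ y : ℤ, (B : ℚ) * c = y) ∧ NG k G ∣ B

/-- the general bound, its case for `P` a Sylow subgroup, and its case of permutation groups of degree `n` -/
theorem result (p : ℕ) (k G : Type) [Field k] [IsAlgClosed k] [Group G] [Finite G]
    (hp : p.Prime) (hk : CharP k p) :
    (∀ a r : ℕ, 1 ≤ r →
      (∀ W : Subgroup G, (∃ n : ℕ, Nat.card W = p ^ n) →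
        Subgroup.normalClosure (W : Set G) = ⊤ → PCondition p a W ∧ TameCondition p r W) →
      Bounded k G (p ^ a * r)) ∧
    (∀ (P : Sylow p G) (s e : ℕ),
      Nat.card P < p ^ (2 * s + 2) * Nat.card (Subgroup.center P) →
      (∀ C : Subgroup G, (∀ x ∈ C, x ^ p = 1) → (∀ x ∈ C, ∀ y ∈ C, x * y = y * x) →
        Nat.card C ≤ p ^ e) →
      Bounded k G (p ^ s * (Finset.Icc 1 e).lcm (fun m => p ^ m - 1))) ∧
    (∀ (n : ℕ) (ι : G →* Equiv.Perm (Fin n)), Function.Injective ι →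
      Bounded k G (p ^ (Nat.log p n - Nat.gcd 2 p) * tameBound p n)) := by
  refine ⟨?_, ?_, ?_⟩
  · intro a r hr h
    refine CGdx.rgdx p k G a r hp hk hr fun W hW hn => ?_
    obtain ⟨h1, h2⟩ := h W hW hn
    refine ⟨fun z hz hz1 hzp hc => h1 z hz hz1 hzp hc, ?_⟩
    intro g C hg hgW hCW hC hE hWC hgC hY
    exact h2 g C hg hgW hCW hC hE.1 hWC hgC hY
  · intro P s e h1 h2
    exact CGdx.rsqg p s e k G P hp hk h1 fun C hC => h2 C hC.1 hC.2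
  · intro n ι hι
    exact CGdx.rpgn p n k G ι hp hk hι

end Pool.Agent.Results.MP_b57703_ag.GeneralUpperBound
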