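import Pool.Agent.H37.CND2.CLtx

/-!
# MP_b57703: `N_G` for `SL_n(q)`, `SU_3(q)`, `Sp_4(q)` (`q` odd), Suzuki groups, their central quotients, direct products;
# the bound for all finite subgroups of `GL_n(q)`
-/

set_option autoImplicit false

namespace Pool.Agent.Results.MP_b57703_ag.LieType

open Pool.CND

/-- `M_n(q) = q ^ (n - 2) lcm(q - 1, q ^ 2 - 1, ..., q ^ (n - 1) - 1)`, divided by `2` if `q` is even and `n ≥ 3` -/
def M (n q : ℕ) : ℕ :=
  q ^ (n - 2) / Nat.gcd 2 (q ^ (n - 2)) * (Finset.Icc 1 (n - 1)).lcm (fun m => q ^ m - 1)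

/-- `G` is isomorphic to `SL_n(q) / C`, `n ≥ 2`, `q` a power of `p`, `C` central -/
def IsSL (p n q : ℕ) (G : Type) [Group G] : Prop :=
  ∃ (F : Type) (_ : Field F) (f : ℕ) (C : Subgroup (Matrix.SpecialLinearGroup (Fin n) F))
    (_ : C.Normal), 1 ≤ f ∧ q = p ^ f ∧ Nat.card F = q ∧
    C ≤ Subgroup.center (Matrix.SpecialLinearGroup (Fin n) F) ∧
    Nonempty (G ≃* Matrix.SpecialLinearGroup (Fin n) F ⧸ C)

/-- `S` is isomorphic to the group of the matrices `g ∈ SL_n(F)` with the property `T` -/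
def IsoTo {n : ℕ} {F : Type} [Field F] (S : Type) [Group S]
    (T : Matrix (Fin n) (Fin n) F → Prop) : Prop :=
  ∃ j : S →* Matrix.SpecialLinearGroup (Fin n) F, Function.Injective j ∧
    ∀ g : Matrix.SpecialLinearGroup (Fin n) F, (∃ s, j s = g) ↔ T g.1

/-- the matrix of the hermitian form `X_0 Y_2 + X_2 Y_0 - X_1 Y_1` -/
def herm (F : Type) [Field F] : Matrix (Fin 3) (Fin 3) F := !![0, 0, 1; 0, -1, 0; 1, 0, 0]

/-- the matrix of an alternating form on `F ^ 4` -/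
def symp (F : Type) [Field F] : Matrix (Fin 4) (Fin 4) F :=
  !![0, 0, 0, 1; 0, 0, 1, 0; 0, -1, 0, 0; -1, 0, 0, 0]

/-- the minors of `g` on the rows and columns `01, 02, 13, 23` -/
def minors {F : Type} [Field F] (g : Matrix (Fin 4) (Fin 4) F) : Matrix (Fin 4) (Fin 4) F :=
  fun a b =>
    g ((![0, 0, 1, 2] : Fin 4 → Fin 4) a) ((![0, 0, 1, 2] : Fin 4 → Fin 4) b) *
      g ((![1, 2, 3, 3] : Fin 4 → Fin 4) a) ((![1, 2, 3, 3] : Fin 4 → Fin 4) b) -
    g ((![0, 0, 1, 2] : Fin 4 → Fin 4) a) ((![1, 2, 3, 3] : Fin 4 → Fin 4) b) *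
      g ((![1, 2, 3, 3] : Fin 4 → Fin 4) a) ((![0, 0, 1, 2] : Fin 4 → Fin 4) b)

/-- `G` is isomorphic to `S / C`, `S` isomorphic to `SU_3(q)`, `q` a power of `p`, `C` central -/
def IsSU (p q : ℕ) (G : Type) [Group G] : Prop :=
  ∃ (F : Type) (_ : Field F) (f : ℕ) (σ : F →+* F) (S : Type) (_ : Group S) (C : Subgroup S)
    (_ : C.Normal), 1 ≤ f ∧ q = p ^ f ∧ Nat.card F = q ^ 2 ∧ (∀ a, σ a = a ^ q) ∧
    IsoTo S (fun g : Matrix (Fin 3) (Fin 3) F => g * herm F * (g.map σ).transpose = herm F) ∧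
    C ≤ Subgroup.center S ∧ Nonempty (G ≃* S ⧸ C)

/-- `G` is isomorphic to the Suzuki group `Sz(q)`, `q = 2 ^ (2 m + 1)`, `m ≥ 1`: the matrices in `Sp_4(q)` whose minors on `01, 02, 13, 23` are
the `2 ^ (m + 1)`-th powers of their entries -/
def IsSz (m q : ℕ) (G : Type) [Group G] : Prop :=
  ∃ (F : Type) (_ : Field F) (φ : F →+* F), CharP F 2 ∧ 1 ≤ m ∧
    q = 2 ^ (2 * m + 1) ∧ Nat.card F = q ∧ (∀ a, φ a = a ^ 2 ^ (m + 1)) ∧
    IsoTo G (fun g : Matrix (Fin 4) (Fin 4) F =>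
      g.transpose * symp F * g = symp F ∧ minors g = g.map φ)

/-- `G` is isomorphic to `S / C`, `S` isomorphic to `Sp_4(q)`, `q` a power of `p`, `C` central -/
def IsSp (p q : ℕ) (G : Type) [Group G] : Prop :=
  ∃ (F : Type) (_ : Field F) (f : ℕ) (S : Type) (_ : Group S) (C : Subgroup S)
    (_ : C.Normal), 1 ≤ f ∧ q = p ^ f ∧ Nat.card F = q ∧
    IsoTo S (fun g : Matrix (Fin 4) (Fin 4) F => g.transpose * symp F * g = symp F) ∧
    C ≤ Subgroup.center S ∧ Nonempty (G ≃* S ⧸ C)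

/-- `G` is one of the groups in `IsSL`, `IsSU`, `IsSz` (`p = 2`), `IsSp` (`p` odd), and `N` is the value of `N_G`: `M_n(q)` for `SL_n`, `n ≥ 3`,
`(q - 1) / gcd(2, q - 1)` for `SL_2`, `q (q - 1)` for `SU_3`, `2 ^ m (q - 1)` for `Sz`, `q (q ^ 2 - 1) / 2` for `Sp_4` -/
def LieValue (p : ℕ) (G : Type) [Group G] (N : ℕ) : Prop :=
  (∃ n q : ℕ, IsSL p n q G ∧
    ((n = 2 ∧ N = (q - 1) / Nat.gcd 2 (q - 1)) ∨ (3 ≤ n ∧ N = M n q))) ∨
  (∃ q : ℕ, IsSU p q G ∧ N = q * (q - 1)) ∨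
  (p = 2 ∧ ∃ m q : ℕ, IsSz m q G ∧ N = 2 ^ m * (q - 1)) ∨
  (p ≠ 2 ∧ ∃ q : ℕ, IsSp p q G ∧ N = q * ((q ^ 2 - 1) / 2))

/-- `B c` is an integer for every conductor `c`, and `N_G` divides `B` -/
def Bounded (k : Type) [Field k] (G : Type) [Group G] (B : ℕ) : Prop :=
  (∀ c ∈ Cond k G, ∃ y : ℤ, (B : ℚ) * c = y) ∧ NG k G ∣ B

/-- for all finite subgroups `G` of `GL_n(q)`, `n ≥ 2`, `q` a power of `p`, and central subgroups `C` of `G` of order prime to `p`:
`Bounded` for `G / C` and `M_n(q)` -/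
def LinearBound (p : ℕ) (k : Type) [Field k] : Prop :=
  ∀ (f q n : ℕ) (F G : Type) [Field F] [Group G] [Finite G] (C : Subgroup G) [C.Normal]
    (ι : G →* Matrix.GeneralLinearGroup (Fin n) F), 1 ≤ f → q = p ^ f → Nat.card F = q → 2 ≤ n →
    Function.Injective ι → C ≤ Subgroup.center G → ¬ p ∣ Nat.card C → Bounded k (G ⧸ C) (M n q)

lemma IsoTo.equiv {n : ℕ} {F : Type} [Field F] {S : Type} [Group S]
    {T : Matrix (Fin n) (Fin n) F → Prop} (h : IsoTo S T)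
    (H : Subgroup (Matrix.SpecialLinearGroup (Fin n) F)) (hH : ∀ g, g ∈ H ↔ T g.1) :
    Nonempty (S ≃* H) := by
  obtain ⟨j, hj, hT⟩ := h
  have h1 : j.range = H := by
    ext g
    rw [MonoidHom.mem_range, hH g]
    exact hT g
  exact ⟨(MonoidHom.ofInjective hj).trans (MulEquiv.subgroupCongr h1)⟩

lemma symp_eq (F : Type) [Field F] [CharP F 2] : symp F = J4 F := by
  have h : (-1 : F) = 1 := CharTwo.neg_eq 1
  ext i j
  fin_cases i <;> fin_cases j <;> simp [symp, J4, h]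

lemma minors_eq {F : Type} [Field F] (g : Matrix (Fin 4) (Fin 4) F) : minors g = mnr g := rfl

lemma quot_transport {S T G : Type} [Group S] [Group T] [Group G] (e : S ≃* T) (C : Subgroup S)
    [C.Normal] (hC : C ≤ Subgroup.center S) (h : Nonempty (G ≃* S ⧸ C)) :
    ∃ (C' : Subgroup T) (_ : C'.Normal), C' ≤ Subgroup.center T ∧ Nonempty (G ≃* T ⧸ C') := by
  obtain ⟨h⟩ := h
  have hn : (C.map e.toMonoidHom).Normal :=
    Subgroup.Normal.map inferInstance e.toMonoidHom e.surjective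
  refine ⟨C.map e.toMonoidHom, hn, ?_, ⟨h.trans (QuotientGroup.congr C _ e rfl)⟩⟩
  rintro _ ⟨c, hc, rfl⟩
  rw [Subgroup.mem_center_iff]
  intro g
  obtain ⟨g', rfl⟩ := e.surjective g
  have h1 := (Subgroup.mem_center_iff.1 (hC hc)) g'
  show e g' * e c = e c * e g'
  rw [← map_mul, h1, map_mul]

lemma gcd_pow (p f q n : ℕ) (hp : p.Prime) (hf : 1 ≤ f) (hq : q = p ^ f) (hn : 3 ≤ n) :
    Nat.gcd 2 (q ^ (n - 2)) = Nat.gcd 2 q := by
  rcases hp.eq_two_or_odd' with h2 | ho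
  · have h1 : 2 ∣ q := by
      rw [hq, h2]
      exact dvd_pow_self 2 (by omega)
    rw [Nat.gcd_eq_left (h1.trans (dvd_pow_self q (by omega))), Nat.gcd_eq_left h1]
  · have h1 : Odd q := by
      rw [hq]
      exact ho.pow
    have h2 : Odd (q ^ (n - 2)) := h1.pow
    have h3 : Nat.gcd 2 q = 1 := (Nat.coprime_two_left.2 h1)
    have h4 : Nat.gcd 2 (q ^ (n - 2)) = 1 := (Nat.coprime_two_left.2 h2)
    rw [h3, h4]

lemma M_eq (p f q n : ℕ) (hp : p.Prime) (hf : 1 ≤ f) (hq : q = p ^ f) (hn : 3 ≤ n) :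
    M n q = q ^ (n - 2) / Nat.gcd 2 q * (Finset.Icc 1 (n - 1)).lcm (fun m => q ^ m - 1) := by
  unfold M
  rw [gcd_pow p f q n hp hf hq hn]

/-- (1) the bound for all finite `G ≤ GL_n(q)`, attained by `SL_n(q)`, `n ≥ 3`; (2) the exact values, also for direct products -/
theorem result (p : ℕ) (hp : p.Prime) (k : Type) [Field k] [IsAlgClosed k] [CharP k p] :
    LinearBound p k ∧
    (∀ (G : Type) [Group G] (N : ℕ), LieValue p G N → NG k G = N) ∧
    (∀ (n : ℕ) (G : Fin n → Type) [∀ i, Group (G i)] (N : Fin n → ℕ),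
      (∀ i, LieValue p (G i) (N i)) →
      NG k (∀ i, G i) = (Finset.univ : Finset (Fin n)).lcm N) := by
  have hprod : ∀ (n : ℕ) (G : Fin n → Type) [∀ i, Group (G i)] (N : Fin n → ℕ),
      (∀ i, LieValue p (G i) (N i)) →
      NG k (∀ i, G i) = (Finset.univ : Finset (Fin n)).lcm N := by
    intro n G _ N h
    refine CLtx.rlty p n k G N hp fun i => ?_
    rcases h i with ⟨m, q, ⟨F, hF, f, C, hC, h1, h2, h3, h4, h5⟩, h6⟩ |
      ⟨q, ⟨F, hF, f, σ, S, hS, C₀, hC₀, h1, h2, h3, h4, hI, h5, h6⟩, h7⟩ |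
      ⟨hp2, m, q, ⟨F, hF, φ, hF2, h1, h2, h3, h4, hI⟩, h6⟩ |
      ⟨hp2, q, ⟨F, hF, f, S, hS, C₀, hC₀, h1, h2, h3, hI, h5, h6⟩, h7⟩
    · refine Or.inl (Or.inl ⟨F, hF, f, q, m, C, hC, h1, h2, h3, h4, h5, ?_⟩)
      rcases h6 with h6 | ⟨h6, h7⟩
      · exact Or.inl h6
      · refine Or.inr ⟨h6, ?_⟩
        rw [h7, M_eq p f q m hp h1 h2 h6]
    · obtain ⟨e⟩ := hI.equiv (SU3 σ) (fun g => Iff.rfl)
      obtain ⟨C, hC, h5', h6'⟩ := quot_transport e C₀ h5 h6
      exact Or.inl (Or.inr (Or.inl ⟨F, hF, f, q, σ, C, hC, h1, h2, h3, h4, h5', h6', h7⟩))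
    · have h5 : Nonempty (G i ≃* Sz φ) := hI.equiv (Sz φ) (fun g => by
        rw [symp_eq F, minors_eq]
        exact Iff.rfl)
      exact Or.inl (Or.inr (Or.inr ⟨hp2, F, hF, hF2, m, q, φ, h1, h2, h3, h4, h5, h6⟩))
    · obtain ⟨e⟩ := hI.equiv (Sp4 F) (fun g => Iff.rfl)
      obtain ⟨C, hC, h5', h6'⟩ := quot_transport e C₀ h5 h6
      exact Or.inr ⟨hp2, F, hF, f, q, C, hC, h1, h2, h3, h5', h6', h7⟩
  refine ⟨?_, ?_, hprod⟩
  · intro f q n F G _ _ _ C _ ι hf hq hF hn hι hC hpC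
    rcases Nat.lt_or_ge n 3 with h3 | h3
    · have hn2 : n = 2 := by omega
      have hM : M n q = q ^ (n - 2) * (Finset.Icc 1 (n - 1)).lcm (fun m => q ^ m - 1) := by
        unfold M
        subst hn2
        simp
      rw [hM]
      exact CLtx.rub3 p f q n k F G C ι hp hf hq hF hn hι hC hpC
    · rcases hp.eq_two_or_odd' with h2 | ho
      · have hk2 : CharP k 2 := h2 ▸ (inferInstance : CharP k p)
        have hM : M n q = 2 ^ (f * (n - 2) - 1) *
            (Finset.Icc 1 (n - 1)).lcm (fun m => q ^ m - 1) := by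
          rw [M_eq p f q n hp hf hq h3]
          have h1 : 2 ∣ q := by
            rw [hq, h2]
            exact dvd_pow_self 2 (by omega)
          rw [Nat.gcd_eq_left h1]
          congr 1
          have h5 : q ^ (n - 2) = 2 ^ (f * (n - 2) - 1) * 2 := by
            rw [hq, h2, ← pow_mul, ← pow_succ]
            congr 1
            have : 1 ≤ f * (n - 2) := Nat.one_le_iff_ne_zero.2 (by
              refine Nat.mul_ne_zero ?_ ?_ <;> omega)
            omega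
          rw [h5, Nat.mul_div_cancel _ (by norm_num)]
        rw [hM]
        exact CLtx.rub4 f q n k F G C ι hf (by rw [hq, h2]) hF h3 hι hC (by rw [← h2]; exact hpC)
      · have hM : M n q = q ^ (n - 2) * (Finset.Icc 1 (n - 1)).lcm (fun m => q ^ m - 1) := by
          rw [M_eq p f q n hp hf hq h3]
          have h1 : Odd q := by
            rw [hq]
            exact ho.pow
          have h3' : Nat.gcd 2 q = 1 := (Nat.coprime_two_left.2 h1)
          rw [h3', Nat.div_one]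
        rw [hM]
        exact CLtx.rub3 p f q n k F G C ι hp hf hq hF hn hι hC hpC
  · intro G _ N h
    have h1 := hprod 1 (fun _ => G) (fun _ => N) (fun _ => h)
    rw [CLtx.rcng k G (Fin 1 → G) ⟨(MulEquiv.funUnique (Fin 1) G).symm⟩, h1]
    simp

end Pool.Agent.Results.MP_b57703_ag.LieType
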