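import Pool.Agent.H37.CND2.Cyc
import Pool.Agent.H21.CTL.PM4

/-!
# MP_b57703: `p`-groups, `p` odd: `N_G` divides `|G : C_G(A)|`, `A` a maximal normal elementary abelian subgroup,
and equality
-/

set_option autoImplicit false

namespace Pool.Agent.Results.MP_b57703_ag.OddPGroups

open Pool.CND
open scoped Matrix

/-- `A` is maximal among the normal elementary abelian `p`-subgroups -/
def IsMaxNormalEA {G : Type} [Group G] (p : ℕ) (A : Subgroup G) : Prop :=
  A.Normal ∧ ((∀ a ∈ A, a ^ p = 1) ∧ ∀ a ∈ A, ∀ b ∈ A, a * b = b * a) ∧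
    ∀ B : Subgroup G, B.Normal → ((∀ a ∈ B, a ^ p = 1) ∧ ∀ a ∈ B, ∀ b ∈ B, a * b = b * a) →
      A ≤ B → B = A

/-- `κ` is an embedding of `F ^ n × F ^ r` onto a normal subgroup of `G`, on which `g` acts by
`(a, c) ↦ (a, c + β(g) a)`, `β` a homomorphism from `G` onto the `r × n` matrices over `F` -/
def Linear {G : Type} [Group G] (F : Type) [Field F] (n r : ℕ)
    (κ : (Fin n → F) → (Fin r → F) → G) (β : G → Matrix (Fin r) (Fin n) F) : Prop :=
  (∀ a a' c c', κ (a + a') (c + c') = κ a c * κ a' c') ∧ (∀ a c, κ a c = 1 → a = 0 ∧ c = 0) ∧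
    (∀ g h : G, β (g * h) = β g + β h) ∧ Function.Surjective β ∧
    ∀ g a c, g * κ a c * g⁻¹ = κ a (c + β g *ᵥ a)

theorem result (p : ℕ) (k : Type) [Field k] [IsAlgClosed k] [CharP k p] (hp : p.Prime)
    (h2 : p ≠ 2) :
    (∀ (G : Type) [Group G] [Finite G] (A : Subgroup G), (∃ n : ℕ, Nat.card G = p ^ n) →
      IsMaxNormalEA p A →
      (∀ c ∈ Cond k G, ∃ y : ℤ, ((Subgroup.centralizer (A : Set G)).index : ℚ) * c = y) ∧
      NG k G ∣ (Subgroup.centralizer (A : Set G)).index ∧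
      (NG k G = 1 ↔ ∀ x : G, x ^ p = 1 → x ∈ Subgroup.center G) ∧
      ((Subgroup.centralizer (A : Set G)).index = p → NG k G = p) ∧
      ((∃ C : Subgroup G, Nat.card C = p ∧ ∀ g : G, ∀ a ∈ A, g * a * g⁻¹ * a⁻¹ ∈ C) →
        NG k G = (Subgroup.centralizer (A : Set G)).index) ∧
      (IsCyclic (commutator G) → NG k G = (Subgroup.centralizer (A : Set G)).index) ∧
      (Nat.card G ∣ p ^ 4 → NG k G = (Subgroup.centralizer (A : Set G)).index) ∧
      ∀ (F : Type) [Field F] [Finite F] [CharP F p] (n r : ℕ)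
        (κ : (Fin n → F) → (Fin r → F) → G) (β : G → Matrix (Fin r) (Fin n) F), 1 ≤ n → 1 ≤ r →
        Linear F n r κ β → (Subgroup.centralizer (A : Set G)).index = Nat.card F ^ n →
        NG k G = (Subgroup.centralizer (A : Set G)).index) ∧
    ∀ (F : Type) [Field F] [Finite F] [CharP F p] (f q : ℕ), q = p ^ f → Nat.card F = q →
      (∀ S : Sylow p (Matrix.GeneralLinearGroup (Fin 3) F), NG k S = q) ∧
      ∀ S : Sylow p (Matrix.GeneralLinearGroup (Fin 4) F), NG k S = q ^ 2 := by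
  refine ⟨?_, ?_⟩
  · intro G _ _ A hG hA
    obtain ⟨h1, h3, h4, h5, h6⟩ := CPmx.rpmx p k G A hp h2 hG hA
    refine ⟨h1, h3, h4, h5, h6, ?_, ?_, ?_⟩
    · intro hc
      rcases cyc_aux p G A hp hA.1 hA.2.1 hc with h | h
      · rw [h] at h3 ⊢
        exact Nat.dvd_one.mp h3
      · exact h6 h
    · intro h4
      have h7 := pm4 p G A hp h4 hA
      rcases (Nat.dvd_prime hp).1 h7 with h | h
      · rw [h] at h3 ⊢
        exact Nat.dvd_one.mp h3
      · rw [h]
        exact h5 h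
    intro F _ _ _ n r κ β hn hr hL hi
    exact CPmx.rpmy p n r k F G A κ β hp h2 hG hA hn hr hL.1 hL.2.1 hL.2.2.1 hL.2.2.2.1
      hL.2.2.2.2 hi
  · intro F _ _ _ f q hq hF
    exact CPmx.ruts p f q k F hp h2 hq hF

end Pool.Agent.Results.MP_b57703_ag.OddPGroups
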