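import Pool.Agent.H37.CND2.CWre

/-!
# MP_b57703: the wreath products `C_p ≀_Ω H`, `H` any finite group
-/

set_option autoImplicit false

namespace Pool.Agent.Results.MP_b57703_ag.WreathProducts

open Pool.CND

/-- the wreath product `C_p ≀_Ω H = (Ω → C_p) ⋊ H`, where `H` permutes the coordinates -/
abbrev Wr (p : ℕ) (H Ω : Type) [Group H] [MulAction H Ω] : Type :=
  (Ω → Multiplicative (ZMod p)) ⋊[mulAutArrow (G := H) (A := Ω) (M := Multiplicative (ZMod p))] H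

/-- the orders of the inertia groups at infinity of the `H`-Galois covers of the line branched only at infinity -/
def InertiaOrders (k H : Type) [Field k] [Group H] : Set ℕ :=
  {e | ∃ (L : Type) (_ : Field L) (_ : Algebra k L) (ρ : H →* (L ≃ₐ[k] L)) (t : L),
    IsCover ρ t ∧ ∃ P : Place k L, P.ord t < 0 ∧ e = (ram P ρ 0).ncard}

/-- the lengths of the orbits on `Ω` of these inertia groups -/
def OrbitLengths (k H Ω : Type) [Field k] [Group H] [MulAction H Ω] : Set ℕ :=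
  {r | ∃ (L : Type) (_ : Field L) (_ : Algebra k L) (ρ : H →* (L ≃ₐ[k] L)) (t : L),
    IsCover ρ t ∧ ∃ P : Place k L, P.ord t < 0 ∧ ∃ ω : Ω,
      r = ({ω' : Ω | ∃ h ∈ ram P ρ 0, ω' = h • ω} : Set Ω).ncard}

theorem result (p : ℕ) (k : Type) [Field k] [IsAlgClosed k] (hp : p.Prime) (hk : CharP k p) :
    (∀ (H : Type) [Group H] [Finite H] (n : ℕ), 1 ≤ n →
      (NG k (Wr p H H) ∣ n ↔ ∀ e ∈ InertiaOrders k H, e ∣ Nat.gcd 2 p * n)) ∧
    (∀ (H Ω : Type) [Group H] [Finite H] [Finite Ω] [MulAction H Ω]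
      [MulAction.IsPretransitive H Ω],
      (∀ r ∈ OrbitLengths k H Ω, r ∣ Nat.gcd 2 p * NG k (Wr p H Ω)) ∧
      (∀ n : ℕ, 1 ≤ n → NG k H ∣ n → (∀ r ∈ OrbitLengths k H Ω, r ∣ Nat.gcd 2 p * n) →
        NG k (Wr p H Ω) ∣ n) ∧
      (Nontrivial H → FaithfulSMul H Ω → (∃ n : ℕ, Nat.card H = p ^ n) →
        Nat.gcd 2 p * NG k (Wr p H Ω) = Nat.card Ω)) ∧
    ∀ (m : ℕ) (S : Sylow p (Equiv.Perm (Fin (p ^ (m + 2))))),
      Nat.gcd 2 p * NG k S = p ^ (m + 1) := by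
  refine ⟨?_, ?_, ?_⟩
  · intro H _ _ n hn
    exact (CWre.rxpw p k H H hp hk).2.2 n hn
  · intro H Ω _ _ _ _ _
    obtain ⟨h1, h2, -⟩ := CWre.rxpw p k H Ω hp hk
    refine ⟨h1, h2, fun hH hF hG => ?_⟩
    exact CWre.rxpp p k H Ω hp hk hG
  · intro m S
    have := Fact.mk hp
    exact CWre.rxsy p m k S

end Pool.Agent.Results.MP_b57703_ag.WreathProducts
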